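import Pool.Agent.Y570.KP.Limit
import Pool.Agent.TH41.BL.DEL

/-!
# MP_0430e4_lc: the `k`-point semidefinite bounds have the exponent of Delsarte's linear program

A pseudo-code of level `k` is a real function `y` on sets of words which behaves like
`y(S) = Prob(S ⊆ C)` for a random code `C`, as far as this can be seen on `k` words: `y(∅) = 1`,
`y(S) = 0` if `S` has two words at distance less than `d`, all pseudo-probabilities
`Prob(D ⊆ C, E ∩ C = ∅)` with `|D| + |E| ≤ k` are nonnegative, and all pseudo-moment matrices of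
the indicators `1, [x ∈ C]` conditioned on `D ⊆ C, E ∩ C = ∅` with `|D| + |E| ≤ k - 2` are positive
semidefinite. The bound `SDP k n d` is the largest pseudo-expectation of `|C|`. For `k = 3` this
contains the constraints of Schrijver's bound from the Terwilliger algebra.

We show: `A(n, d) ≤ SDP k n d ≤ LP(n, d)` (for `k ≥ 2`), the bounds decrease with `k` and
reach `A(n, d)` at `k = 2^n`; but for every fixed `k ≥ 2` and all `0 < δ < 1/2`,
`(1/n) log₂ SDP k n ⌈δ n⌉` has the same limit as for Delsarte's linear program, and this remains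
true for levels tending to infinity sufficiently slowly. The use of other weights on the words
(for instance constant weight codes and the inequality of Elias and Bassalygo) never improves
the bound.
-/

open Filter Topology

namespace Pool.Agent.Results.MP_0430e4_lc.KPointBounds

/-- `A(n,d)`: the largest size of a binary code of length `n` with minimum distance at least `d`. -/
noncomputable def A (n d : ℕ) : ℕ :=
  sSup {m | ∃ C : Finset (Fin n → Bool),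
    (∀ x ∈ C, ∀ y ∈ C, x ≠ y → d ≤ hammingDist x y) ∧ C.card = m}

/-- The pseudo-probability of `D ∪ S ⊆ C, E ∩ C = ∅`:
`∑_{F ⊆ E} (-1)^|F| y(D ∪ F ∪ S)`. -/
def pseudoProb {n : ℕ} (y : Finset (Fin n → Bool) → ℝ) (D E S : Finset (Fin n → Bool)) : ℝ :=
  ∑ F ∈ E.powerset, (-1) ^ F.card * y (D ∪ F ∪ S)

/-- Pseudo-codes of level `k`, length `n` and minimum distance `d`. The rows and columns of the
matrices are indexed by `∅` (that is, `none`) and the sets `{x}` (that is, `some x`). -/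
structure IsPseudoCode (k n d : ℕ) (y : Finset (Fin n → Bool) → ℝ) : Prop where
  one : y ∅ = 1
  dist : ∀ S : Finset (Fin n → Bool), ∀ u ∈ S, ∀ v ∈ S, u ≠ v → hammingDist u v < d → y S = 0
  nonneg : ∀ D E : Finset (Fin n → Bool), D.card + E.card ≤ k → 0 ≤ pseudoProb y D E ∅
  psd : ∀ D E : Finset (Fin n → Bool), D.card + E.card + 2 ≤ k →
    ∀ a : Option (Fin n → Bool) → ℝ,
      0 ≤ ∑ s, ∑ t, a s * a t * pseudoProb y D E (s.toFinset ∪ t.toFinset)

/-- The `k`-point semidefinite bound: the largest value of `∑_x y({x})`. -/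
noncomputable def SDP (k n d : ℕ) : ℝ :=
  sSup {v : ℝ | ∃ y, IsPseudoCode k n d y ∧ v = ∑ x, y {x}}

/-- The same with weights `w` on the words. For the indicator of the words of weight `r` this is
the `k`-point bound for constant weight codes. -/
noncomputable def SDPw (k n d : ℕ) (w : (Fin n → Bool) → ℝ) : ℝ :=
  sSup {v : ℝ | ∃ y, IsPseudoCode k n d y ∧ v = ∑ x, w x * y {x}}

/-- The binary Krawtchouk polynomial `K_j` of length `n` at `w`,
`∑_i (-1)^i (w choose i) (n - w choose j - i)`. -/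
def krawtchouk (n j w : ℕ) : ℤ :=
  ∑ i ∈ Finset.range (j + 1), (-1) ^ i * (w.choose i : ℤ) * ((n - w).choose (j - i) : ℤ)

/-- `f(w) = ∑_{j ≤ n} l_j K_j(w)`. -/
noncomputable def combination (n : ℕ) (l : ℕ → ℝ) (w : ℕ) : ℝ :=
  ∑ j ∈ Finset.range (n + 1), l j * (krawtchouk n j w : ℝ)

/-- The feasible solutions of Delsarte's linear program for binary codes of length `n` and minimum
distance `d`. Each of them gives the bound `A(n, d) ≤ f(0) / l_0`. -/
structure IsFeasible (n d : ℕ) (l : ℕ → ℝ) : Prop where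
  nonneg : ∀ j, 0 ≤ l j
  pos : 0 < l 0
  nonpos : ∀ w : ℕ, d ≤ w → w ≤ n → combination n l w ≤ 0

/-- The value of Delsarte's linear program: the infimum of the bounds `f(0) / l_0`. -/
noncomputable def LP (n d : ℕ) : ℝ :=
  sInf {v : ℝ | ∃ l : ℕ → ℝ, IsFeasible n d l ∧ v = combination n l 0 / l 0}

/-- `η(x) = -x log₂ x`, with `η(0) = 0`. -/
noncomputable def η (x : ℝ) : ℝ := -x * Real.logb 2 x

/-- The binary entropy function. -/
noncomputable def H (x : ℝ) : ℝ := η x + η (1 - x)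

/-- `h(x) = H(1/2 - 1/2 √(1 - x))`. -/
noncomputable def h (x : ℝ) : ℝ := H (1 / 2 - 1 / 2 * √(1 - x))

/-- `α_k(e) = ∑_j sech²((2 j + k) e) / ∑_j sech((2 j + k) e)`, sums over all integers `j`. -/
noncomputable def α (k : ℤ) (e : ℝ) : ℝ :=
  (∑' j : ℤ, 1 / Real.cosh ((2 * j + k) * e) ^ 2) / ∑' j : ℤ, 1 / Real.cosh ((2 * j + k) * e)

/-- `S(e) = h(sech² e) - h(sech² 2e) + h(sech² 3e) - …`. -/
noncomputable def S (e : ℝ) : ℝ := ∑' n : ℕ, (-1) ^ n * h (1 / Real.cosh ((n + 1) * e) ^ 2)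

/-- The curve of the exponents of Delsarte's linear program. -/
def Curve : Set (ℝ × ℝ) :=
  {p | (∃ e : ℝ, 0 < e ∧ p = ((1 - α 1 e) / 2, S e)) ∨
    (∃ e : ℝ, 0 < e ∧ p = ((1 - α 0 e) / 2, 1 - S e)) ∨ p = (1 / 2 - 1 / Real.pi, 1 / 2)}

open Pool.Agent.TH41.BL Pool.Agent.Y570

lemma pc_iff (k n d : ℕ) (y : Finset (Fin n → Bool) → ℝ) :
    IsPseudoCode k n d y ↔ KP.PC n d k y :=
  ⟨fun h => ⟨h.one, h.dist, h.nonneg, h.psd⟩, fun h => ⟨h.one, h.dist, h.nonneg, h.psd⟩⟩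

lemma SDP_eq (k n d : ℕ) : SDP k n d = KP.S1 k n d := by
  unfold SDP KP.S1
  simp only [pc_iff]

lemma SDPw_eq (k n d : ℕ) (w : (Fin n → Bool) → ℝ) : SDPw k n d w = KP.SW n d k w := by
  unfold SDPw KP.SW
  simp only [pc_iff]

lemma feas_iff (n d : ℕ) (l : ℕ → ℝ) : IsFeasible n d l ↔ Feas n d l :=
  ⟨fun h => ⟨h.nonneg, h.pos, h.nonpos⟩, fun h => ⟨h.1, h.2.1, h.2.2⟩⟩

lemma comb_zero (n : ℕ) (l : ℕ → ℝ) : combination n l 0 = Vl n l := (FINf.Vl_eq n l).symm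

lemma A_bdd (n d : ℕ) : BddAbove {m | ∃ C : Finset (Fin n → Bool),
    (∀ x ∈ C, ∀ y ∈ C, x ≠ y → d ≤ hammingDist x y) ∧ C.card = m} := by
  refine ⟨Fintype.card (Fin n → Bool), ?_⟩
  rintro k ⟨C, -, rfl⟩
  exact Finset.card_le_univ C

lemma A_mem (n d : ℕ) : ∃ C : Finset (Fin n → Bool),
    (∀ x ∈ C, ∀ y ∈ C, x ≠ y → d ≤ hammingDist x y) ∧ C.card = A n d := by
  have : A n d ∈ {k | ∃ C : Finset (Fin n → Bool),
      (∀ x ∈ C, ∀ y ∈ C, x ≠ y → d ≤ hammingDist x y) ∧ C.card = k} :=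
    Nat.sSup_mem ⟨0, ∅, by simp, by simp⟩ (A_bdd n d)
  exact this

lemma α_zero (e : ℝ) : α 0 e = A2s e / As e := by
  unfold α A2s As
  simp

lemma α_one (e : ℝ) : α 1 e = B2s e / Bs e := by
  unfold α B2s Bs
  simp

lemma S_eq (e : ℝ) : S e = Ss e := rfl

lemma point {δ θ : ℝ} (h : (δ, θ) ∈ Curve) :
    0 < δ ∧ KP.Ke δ (θ * Real.log 2) ∧ UB δ θ := by
  have hpi := Real.pi_pos
  obtain ⟨c1, c2, c3⟩ := k7_cv
  rcases h with ⟨e, he, hp⟩ | ⟨e, he, hp⟩ | hp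
  · obtain ⟨h2, h3⟩ := Prod.mk.inj hp
    subst h2 h3
    have h4 := CV7f.al_lt_one he (k := 1) (by norm_num)
    rw [CV7f.al_one] at h4
    rw [α_one, S_eq]
    exact ⟨by linarith, KP.ke_two k7_chr he (by linarith), c2 e he⟩
  · obtain ⟨h2, h3⟩ := Prod.mk.inj hp
    subst h2 h3
    have h4 := CV7f.al_lt_one he (k := 0) le_rfl
    rw [CV7f.al_zero] at h4
    rw [α_zero, S_eq]
    exact ⟨by linarith, KP.ke_one k7_chr he, c1 e he⟩
  · obtain ⟨h2, h3⟩ := Prod.mk.inj hp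
    subst h2 h3
    refine ⟨?_, by simpa using KP.ke_mid k7_chr, c3⟩
    have : 1 / Real.pi < 1 / 2 :=
      one_div_lt_one_div_of_lt (by norm_num) (by linarith [Real.pi_gt_three])
    linarith

lemma exists_point (δ : ℝ) (h0 : 0 < δ) (h1 : δ < 1 / 2) : ∃ θ, (δ, θ) ∈ Curve := by
  have hpi := Real.pi_pos
  rcases lt_trichotomy δ (1 / 2 - 1 / Real.pi) with h | h | h
  · obtain ⟨e, he, hv⟩ := Pool.Agent.TH753.FF.exists_zero (y := 1 - 2 * δ)
      (by rw [show 2 / Real.pi = 2 * (1 / Real.pi) by ring]; linarith) (by linarith)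
    refine ⟨1 - S e, Or.inr (Or.inl ⟨e, he, ?_⟩)⟩
    rw [α_zero, ← CV7f.al_zero, hv]
    congr 1
    ring
  · exact ⟨1 / 2, Or.inr (Or.inr (by rw [h]))⟩
  · obtain ⟨e, he, hv⟩ := Pool.Agent.TH753.FF.exists_one (y := 1 - 2 * δ) (by linarith)
      (by rw [show 2 / Real.pi = 2 * (1 / Real.pi) by ring]; linarith)
    refine ⟨S e, Or.inl ⟨e, he, ?_⟩⟩
    rw [α_one, ← CV7f.al_one, hv]
    congr 1
    ring

/-- **The `k`-point bounds have the exponent of Delsarte's linear program.** -/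
theorem result :
    (∀ k n d : ℕ, 1 ≤ k → (A n d : ℝ) ≤ SDP k n d ∧ SDP (k + 1) n d ≤ SDP k n d) ∧
    (∀ k n d : ℕ, 2 ≤ k → 1 ≤ d → SDP k n d ≤ LP n d) ∧
    (∀ k n d : ℕ, 2 ^ n ≤ k → SDP k n d = A n d) ∧
    (∀ (k n d : ℕ) (w : (Fin n → Bool) → ℝ), 1 ≤ k → (∀ x, 0 ≤ w x) →
      (A n d : ℝ) * ∑ x, w x ≤ 2 ^ n * SDPw k n d w ∧
      SDP k n d * ∑ x, w x ≤ 2 ^ n * SDPw k n d w) ∧
    (∀ δ : ℝ, 0 < δ → δ < 1 / 2 → ∃ θ, (δ, θ) ∈ Curve) ∧
    (∀ (k : ℕ) (δ θ : ℝ), 2 ≤ k → (δ, θ) ∈ Curve →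
      Tendsto (fun n : ℕ => Real.logb 2 (SDP k n ⌈δ * n⌉₊) / n) atTop (𝓝 θ)) ∧
    ∀ δ θ : ℝ, (δ, θ) ∈ Curve → ∃ k : ℕ → ℕ, Tendsto k atTop atTop ∧ (∀ n, 2 ≤ k n) ∧
      Tendsto (fun n : ℕ => Real.logb 2 (SDP (k n) n ⌈δ * n⌉₊) / n) atTop (𝓝 θ) := by
  simp_rw [SDP_eq, SDPw_eq]
  refine ⟨fun k n d hk => ⟨?_, KP.S1_anti hk (Nat.le_succ k)⟩, fun k n d hk hd => ?_,
    fun k n d hk => ?_, fun k n d w hk hw => ⟨?_, KP.S1_weight hk hw⟩, exists_point,
    fun k δ θ hk h => ?_, fun δ θ h => ?_⟩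
  · obtain ⟨C, hC, hcard⟩ := A_mem n d
    rw [← hcard]
    exact KP.code_S1 hk C hC
  · refine le_csInf ⟨_, _, (feas_iff n d _).2 (DELf.feas_one hd), rfl⟩ ?_
    rintro v ⟨l, hl, rfl⟩
    rw [comb_zero]
    exact KP.S1_le_lp k7_chr hk ((feas_iff n d l).1 hl)
  · refine le_antisymm (KP.S1_full hk (A n d) fun C hC => le_csSup (A_bdd n d) ⟨C, hC, rfl⟩) ?_
    obtain ⟨C, hC, hcard⟩ := A_mem n d
    rw [← hcard]
    exact KP.code_S1 (le_trans Nat.one_le_two_pow hk) C hC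
  · obtain ⟨C, hC, hcard⟩ := A_mem n d
    rw [← hcard]
    exact KP.elias hk hw C hC
  · obtain ⟨h0, h1, h2⟩ := point h
    exact KP.S1_limit k7_chr hk h0 h1 h2
  · obtain ⟨h0, h1, h2⟩ := point h
    exact KP.S1_slow k7_chr h0 h1 h2

end Pool.Agent.Results.MP_0430e4_lc.KPointBounds
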