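import Pool.Agent.Y646.Lh14

/-!
# MP_0430e4_lc: the hierarchy of linear programs for linear codes stays above Gilbert and Varshamov

Level `l` of the hierarchy of linear programs for linear codes (Coregliano, Jeronimo and Jones,
Loyfer and Linial): a pseudo-code of level `l` is a real function `f` on `l`-tuples of words which
behaves like `f(X) = Prob(X_1, ..., X_l ∈ C)` for a random linear code `C`: `f(0) = 1`, `f ≥ 0`,
`f(X) ≤ f(Y)` if the words of `Y` are linear combinations of those of `X` (so `f` depends only on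
the span), `f(X) = 0` if some linear combination of `X` has weight between `1` and `d - 1`, and all
Fourier transforms of `f` in some of the words, with the other words fixed, are nonnegative. The
bound `LP l n d` is the largest value of `∑ f(X)`, an upper bound for `|C|^l`. Level `1` is
Delsarte's linear program.

We show that the bounds are valid and exact from level `n` on, but for every `0 < δ < 1/2` there is
`c > 0` such that for all large `n` and all levels `l ≤ c √n` the resulting bound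
`LP(l, n, δ n)^(1/l)` for linear codes is at least `2^((1 - H(δ) + c/l) n)`, exponentially larger
than the bound of Gilbert and Varshamov.
-/

namespace Pool.Agent.Results.MP_0430e4_lc.LinearCodeHierarchy

/-- The largest size of a linear binary code of length `n` with minimum distance at least `d`. -/
noncomputable def Alin (n d : ℕ) : ℕ :=
  sSup {m | ∃ C : Submodule (ZMod 2) (Fin n → ZMod 2),
    (∀ x ∈ C, x ≠ 0 → d ≤ hammingNorm x) ∧ Nat.card C = m}

/-- The feasible functions of level `l`. In the last condition `Z` runs over the tuples which agree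
with `X` outside `S`, and `(-1)^(...)` is the character with the words `Ξ i`, `i ∈ S`. -/
structure IsPseudoCode (l n d : ℕ) (f : (Fin l → Fin n → ZMod 2) → ℝ) : Prop where
  one : f 0 = 1
  nonneg : ∀ X, 0 ≤ f X
  mono : ∀ X Y, Submodule.span (ZMod 2) (Set.range Y) ≤ Submodule.span (ZMod 2) (Set.range X) →
    f X ≤ f Y
  dist : ∀ X (a : Fin l → ZMod 2), 0 < hammingNorm (∑ i, a i • X i) →
    hammingNorm (∑ i, a i • X i) < d → f X = 0
  fourier : ∀ (S : Finset (Fin l)) (X Ξ : Fin l → Fin n → ZMod 2),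
    0 ≤ ∑ Z with (∀ i ∉ S, Z i = X i),
      f Z * (-1 : ℝ) ^ (∑ i ∈ S, ∑ j, (Ξ i j).val * (Z i j).val)

/-- The bound of level `l` for the `l`-th power of the size of a linear code. -/
noncomputable def LP (l n d : ℕ) : ℝ :=
  sSup {v : ℝ | ∃ f, IsPseudoCode l n d f ∧ v = ∑ X, f X}

/-- The binary entropy function. -/
noncomputable def H (x : ℝ) : ℝ := -x * Real.logb 2 x - (1 - x) * Real.logb 2 (1 - x)

open Pool.Agent.Y646 Finset

lemma feas_iff (l n d : ℕ) (f : (Fin l → Fin n → ZMod 2) → ℝ) :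
    IsPseudoCode l n d f ↔ Lh.Feas l n d f :=
  ⟨fun h => ⟨h.one, h.nonneg, h.mono, h.dist, h.fourier⟩,
    fun h => ⟨h.one, h.nonneg, h.mono, h.dist, h.fourier⟩⟩

lemma bdd (l n d : ℕ) : BddAbove {v : ℝ | ∃ f, IsPseudoCode l n d f ∧ v = ∑ X, f X} := by
  refine ⟨(Fintype.card (Fin l → Fin n → ZMod 2) : ℝ), ?_⟩
  rintro v ⟨f, hf, rfl⟩
  calc ∑ X, f X ≤ ∑ _X : Fin l → Fin n → ZMod 2, (1 : ℝ) := by
        apply Finset.sum_le_sum
        intro X _
        rw [← hf.one]
        apply hf.mono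
        rw [Submodule.span_le]
        rintro _ ⟨i, rfl⟩
        exact Submodule.zero_mem _
    _ = _ := by simp

lemma card_le (n : ℕ) (C : Submodule (ZMod 2) (Fin n → ZMod 2)) : Nat.card C ≤ 2 ^ n := by
  calc Nat.card C ≤ Nat.card (Fin n → ZMod 2) :=
        Nat.card_le_card_of_injective C.subtype C.injective_subtype
    _ = 2 ^ n := by rw [Nat.card_eq_fintype_card, Lh.card_V]

lemma Alin_bdd (n d : ℕ) : BddAbove {m | ∃ C : Submodule (ZMod 2) (Fin n → ZMod 2),
    (∀ x ∈ C, x ≠ 0 → d ≤ hammingNorm x) ∧ Nat.card C = m} := by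
  refine ⟨2 ^ n, ?_⟩
  rintro m ⟨C, -, rfl⟩
  exact card_le n C

lemma Alin_mem (n d : ℕ) : ∃ C : Submodule (ZMod 2) (Fin n → ZMod 2),
    (∀ x ∈ C, x ≠ 0 → d ≤ hammingNorm x) ∧ Nat.card C = Alin n d := by
  have : Alin n d ∈ {m | ∃ C : Submodule (ZMod 2) (Fin n → ZMod 2),
      (∀ x ∈ C, x ≠ 0 → d ≤ hammingNorm x) ∧ Nat.card C = m} := by
    apply Nat.sSup_mem _ (Alin_bdd n d)
    refine ⟨_, ⊥, ?_, rfl⟩
    intro x hx hx0
    exact absurd ((Submodule.mem_bot _).1 hx) hx0
  exact this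

/-- A linear code is a pseudo-code. -/
lemma code_feas (l n d : ℕ) (C : Submodule (ZMod 2) (Fin n → ZMod 2))
    (hC : ∀ x ∈ C, x ≠ 0 → d ≤ hammingNorm x) :
    ∃ f, IsPseudoCode l n d f ∧ (Nat.card C : ℝ) ^ l = ∑ X, f X := by
  classical
  refine ⟨fun X => if ∀ i, X i ∈ C then 1 else 0, ⟨?_, ?_, ?_, ?_, ?_⟩, ?_⟩
  · rw [if_pos]
    intro i; exact C.zero_mem
  · intro X; split_ifs <;> norm_num
  · intro X Y h
    by_cases hX : ∀ i, X i ∈ C
    · rw [if_pos hX, if_pos]
      intro i
      have h1 : Submodule.span (ZMod 2) (Set.range X) ≤ C := by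
        rw [Submodule.span_le]; rintro _ ⟨i, rfl⟩; exact hX i
      exact h1 (h (Submodule.subset_span ⟨i, rfl⟩))
    · rw [if_neg hX]; split_ifs <;> norm_num
  · intro X a h1 h2
    rw [if_neg]
    intro hX
    have hmem : ∑ i, a i • X i ∈ C := Submodule.sum_mem _ fun i _ => C.smul_mem _ (hX i)
    have := hC _ hmem (hammingNorm_pos_iff.1 h1)
    omega
  · intro S X Ξ
    -- either a translation changes the sign or the character is trivial
    simp_rw [Lh.char_eq]
    by_cases hX : ∀ i ∉ S, X i ∈ C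
    swap
    · apply Finset.sum_nonneg
      intro Z hZ
      have hZ' := (Finset.mem_filter.1 hZ).2
      rw [if_neg, zero_mul]
      intro h
      apply hX
      intro i hi
      rw [← hZ' i hi]; exact h i
    by_cases hd : ∀ i ∈ S, ∀ w ∈ C, ∑ j, Ξ i j * w j = 0
    · apply Finset.sum_nonneg
      intro Z hZ
      by_cases h : ∀ i, Z i ∈ C
      · rw [if_pos h, Finset.sum_eq_zero (fun i hi => hd i hi _ (h i)), Lh.sg_zero]
        norm_num
      · rw [if_neg h, zero_mul]
    · push Not at hd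
      obtain ⟨i₀, hi₀, w, hw, hne⟩ := hd
      have hone : ∑ j, Ξ i₀ j * w j = 1 := (Lh.zmod2_cases _).resolve_left hne
      set g : (Fin l → Fin n → ZMod 2) → ℝ := fun Z =>
        (if ∀ i, Z i ∈ C then (1 : ℝ) else 0) * Lh.sg (∑ i ∈ S, ∑ j, Ξ i j * Z i j) with hg
      set sh : (Fin l → Fin n → ZMod 2) → (Fin l → Fin n → ZMod 2) :=
        fun Z => Z + Pi.single i₀ w with hsh
      have hshi : ∀ Z i, i ≠ i₀ → sh Z i = Z i := by
        intro Z i hi
        simp [hsh, hi]
      have hshi0 : ∀ Z, sh Z i₀ = Z i₀ + w := by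
        intro Z
        simp [hsh]
      have hsh2 : ∀ Z, sh (sh Z) = Z := by
        intro Z
        funext i
        by_cases hi : i = i₀
        · subst hi
          rw [hshi0, hshi0, add_assoc, Lh.add_self', add_zero]
        · rw [hshi _ _ hi, hshi _ _ hi]
      have hmem : ∀ Z, (∀ i, sh Z i ∈ C) ↔ ∀ i, Z i ∈ C := by
        have aux : ∀ Z, (∀ i, Z i ∈ C) → ∀ i, sh Z i ∈ C := by
          intro Z h i
          by_cases hi : i = i₀
          · subst hi; rw [hshi0]; exact C.add_mem (h _) hw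
          · rw [hshi _ _ hi]; exact h i
        intro Z
        refine ⟨fun h => ?_, aux Z⟩
        have := aux (sh Z) h
        rwa [hsh2] at this
      have hneg : ∀ Z, g (sh Z) = - g Z := by
        intro Z
        rw [hg]
        simp only [hmem]
        have h5 : ∑ i ∈ S, ∑ j, Ξ i j * sh Z i j = (∑ i ∈ S, ∑ j, Ξ i j * Z i j) + 1 := by
          rw [← Finset.add_sum_erase _ _ hi₀, ← Finset.add_sum_erase (a := i₀) _ _ hi₀]
          have h6 : ∑ i ∈ S.erase i₀, ∑ j, Ξ i j * sh Z i j =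
              ∑ i ∈ S.erase i₀, ∑ j, Ξ i j * Z i j := by
            apply Finset.sum_congr rfl
            intro i hi
            rw [hshi _ _ (Finset.ne_of_mem_erase hi)]
          have h7 : ∑ j, Ξ i₀ j * sh Z i₀ j = (∑ j, Ξ i₀ j * Z i₀ j) + 1 := by
            rw [hshi0, ← hone, ← Finset.sum_add_distrib]
            apply Finset.sum_congr rfl
            intro j _
            rw [Pi.add_apply, mul_add]
          rw [h6, h7]; ring
        rw [h5, Lh.sg_add, Lh.sg_one]
        ring
      have h8 : ∑ Z ∈ univ.filter (fun Z : Fin l → Fin n → ZMod 2 => ∀ i ∉ S, Z i = X i), g Z =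
          ∑ Z ∈ univ.filter (fun Z : Fin l → Fin n → ZMod 2 => ∀ i ∉ S, Z i = X i), g (sh Z) := by
        refine Finset.sum_bij' (fun Z _ => sh Z) (fun Z _ => sh Z) ?_ ?_ ?_ ?_ ?_
        · intro Z hZ
          rw [Finset.mem_filter] at hZ ⊢
          refine ⟨Finset.mem_univ _, fun i hi => ?_⟩
          rw [hshi _ _ (fun h => hi (by rw [h]; exact hi₀)), hZ.2 i hi]
        · intro Z hZ
          rw [Finset.mem_filter] at hZ ⊢
          refine ⟨Finset.mem_univ _, fun i hi => ?_⟩
          rw [hshi _ _ (fun h => hi (by rw [h]; exact hi₀)), hZ.2 i hi]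
        · intro Z _; exact hsh2 Z
        · intro Z _; exact hsh2 Z
        · intro Z _; rw [hsh2]
      simp_rw [hneg] at h8
      rw [Finset.sum_neg_distrib] at h8
      have h9 : ∑ Z ∈ univ.filter (fun Z : Fin l → Fin n → ZMod 2 => ∀ i ∉ S, Z i = X i), g Z = 0 := by
        linarith
      exact le_of_eq h9.symm
  · rw [← Finset.sum_filter, Finset.sum_const, nsmul_eq_mul, mul_one]
    have h1 : univ.filter (fun X : Fin l → Fin n → ZMod 2 => ∀ i, X i ∈ C) =
        Fintype.piFinset (fun _ : Fin l => univ.filter fun x : Fin n → ZMod 2 => x ∈ C) := by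
      ext X
      simp [Fintype.mem_piFinset]
    have h2 : (univ.filter fun x : Fin n → ZMod 2 => x ∈ C).card = Nat.card C := by
      rw [Nat.card_eq_fintype_card]
      exact (Fintype.card_subtype (fun x => x ∈ C)).symm
    rw [h1, Fintype.card_piFinset, Finset.prod_const, Finset.card_univ, Fintype.card_fin, h2]
    push_cast
    rfl

/-- **The hierarchy of linear programs for linear codes stays above Gilbert and Varshamov.** -/
theorem result :
    (∀ l n d : ℕ, (Alin n d : ℝ) ^ l ≤ LP l n d) ∧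
    (∀ l n d : ℕ, n ≤ l → LP l n d = (Alin n d : ℝ) ^ l) ∧
    ∀ δ : ℝ, 0 < δ → δ < 1 / 2 → ∃ c : ℝ, 0 < c ∧ ∃ n₀ : ℕ, ∀ n ≥ n₀, ∀ l : ℕ, 1 ≤ l →
      (l : ℝ) ≤ c * √n →
        (2 : ℝ) ^ ((1 - H δ + c / l) * n) ≤ LP l n ⌈δ * n⌉₊ ^ (1 / l : ℝ) := by
  have hval : ∀ l n d : ℕ, (Alin n d : ℝ) ^ l ≤ LP l n d := by
    intro l n d
    obtain ⟨C, hC, hcard⟩ := Alin_mem n d
    obtain ⟨f, hf, hfs⟩ := code_feas l n d C hC
    rw [← hcard]
    exact le_csSup (bdd l n d) ⟨f, hf, hfs⟩
  refine ⟨hval, ?_, ?_⟩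
  · intro l n d hl
    apply le_antisymm _ (hval l n d)
    obtain ⟨C, hC, -⟩ := Alin_mem n d
    obtain ⟨f, hf, hfs⟩ := code_feas l n d C hC
    refine csSup_le (s := {v : ℝ | ∃ f, IsPseudoCode l n d f ∧ v = ∑ X, f X})
      ⟨∑ X, f X, f, hf, rfl⟩ ?_
    rintro v ⟨f, hf, rfl⟩
    apply Lh.exact_level hl f ((feas_iff l n d f).1 hf)
    intro W hW
    exact_mod_cast le_csSup (Alin_bdd n d) ⟨W, hW, rfl⟩
  · intro δ h0 h1
    obtain ⟨c, hc, n₀, hn₀⟩ := Lh.above δ h0 h1
    refine ⟨c, hc, n₀, fun n hn l hl hln => ?_⟩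
    obtain ⟨f, hf, hfv⟩ := hn₀ n hn l hl hln
    have h2 : (2 : ℝ) ^ (((1 - H δ) * l + c) * n) ≤ LP l n ⌈δ * n⌉₊ :=
      hfv.trans (le_csSup (bdd l n _) ⟨f, (feas_iff l n _ f).2 hf, rfl⟩)
    have hl0 : (0 : ℝ) < l := by exact_mod_cast hl
    have h3 : (2 : ℝ) ^ ((1 - H δ + c / l) * n) =
        ((2 : ℝ) ^ (((1 - H δ) * l + c) * n)) ^ (1 / l : ℝ) := by
      rw [← Real.rpow_mul (by norm_num)]
      congr 1
      field_simp
    rw [h3]
    exact Real.rpow_le_rpow (by positivity) h2 (by positivity)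

end Pool.Agent.Results.MP_0430e4_lc.LinearCodeHierarchy
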