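import Pool.Agent.Y817.PD.Rel

/-!
# Which local constraints can define asymptotically good codes? A Schaefer-type dichotomy

Codes are often given by local constraints with hidden variables (parity checks, Tanner codes,
Horn or 2-SAT formulas, ...). For a family `Γ` of constraint types let `maxDef Γ n d` be the largest
size of a code of length `n` and minimum distance at least `d` definable over `Γ`.

* Binary alphabet. If some polymorphism of `Γ` is not affine (Horn, dual Horn, 2-SAT, ...), then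
  `maxDef Γ n d = 2 ^ ⌊n/d⌋` exactly, so the asymptotic rate is `0` for every `δ`; more generally a
  code closed under an operation acting non-affinely outside a set `T` of coordinates has at most
  `2 ^ ⌊n/d⌋ * A(|T|,d)` words. If all polymorphisms are affine then
  `1 - H₂(δ) ≤ rate ≤ R(δ)` for all `0 < δ < 1/2`.
* Any finite alphabet `A`, all polymorphisms idempotent (e.g. all constants are available). If no
  subalgebra of the polymorphism algebra with at least two elements is abelian, then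
  `|A| ^ ⌊n/d⌋ ≤ maxDef Γ n d ≤ |A| ^ (n/d)`; otherwise for every `δ < 1/2` there are `Γ`-definable
  codes of positive rate and relative distance `δ`.

All definitions are in `Pool/Agent/Y817/PD/Stm.lean`, `Fin.lean`, `Aff.lean` and `Rel.lean`.
-/

namespace Pool.Agent.Results.MP_0430e4_lc.PolymorphismDichotomy

open Pool.Agent.Y817.PD

theorem result :
    -- binary alphabet, some polymorphism is not affine
    (∀ Γ : Lang (ZMod 2), (∃ (k : ℕ) (f : (Fin k → ZMod 2) → ZMod 2), Pol Γ f ∧ ¬ Affine f) →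
      (∀ n d : ℕ, 1 ≤ d → d ≤ n → maxDef Γ n d = 2 ^ (n / d)) ∧
      ∀ δ : ℝ, 0 < δ → δ < 1 / 2 → rateDef Γ δ = 0) ∧
    -- the same bound, for operations that depend on the coordinate and may be affine on `T`
    (∀ (n d k : ℕ) (f : Fin n → (Fin k → ZMod 2) → ZMod 2) (T : Finset (Fin n))
      (C : Finset (Fin n → ZMod 2)), 1 ≤ d → (∀ i, i ∉ T → ¬ Affine (f i)) →
      (∀ w : Fin k → (Fin n → ZMod 2), (∀ l, w l ∈ C) → (fun i => f i (fun l => w l i)) ∈ C) →
      MinDist C d → C.card ≤ 2 ^ (n / d) * maxCode (ZMod 2) T.card d) ∧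
    -- binary alphabet, all polymorphisms are affine
    (∀ Γ : Lang (ZMod 2), (∀ (k : ℕ) (f : (Fin k → ZMod 2) → ZMod 2), Pol Γ f → Affine f) →
      ∀ δ : ℝ, 0 < δ → δ < 1 / 2 →
        (∀ n : ℕ, (2 : ℝ) ^ ((1 - H δ) * n) ≤ maxDef Γ n ⌈δ * n⌉₊) ∧
        1 - H δ ≤ rateDef Γ δ ∧ rateDef Γ δ ≤ R δ) ∧
    -- finite alphabet, idempotent polymorphisms, no nontrivial abelian subalgebra
    (∀ (A : Type) [Fintype A] [DecidableEq A] [Nonempty A] (Γ : Lang A),
      (∀ (k : ℕ) (f : (Fin k → A) → A), Pol Γ f → ∀ a, f (fun _ => a) = a) →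
      (∀ U : Set A, Closed (polAlg Γ) U → U.Nontrivial → ¬ Abelian (polAlg Γ) U) →
      ∀ n d : ℕ, 1 ≤ d →
        Fintype.card A ^ (n / d) ≤ maxDef Γ n d ∧ maxDef Γ n d ^ d ≤ Fintype.card A ^ n) ∧
    -- finite alphabet, idempotent polymorphisms, a nontrivial abelian subalgebra
    (∀ (A : Type) [Fintype A] [DecidableEq A] (Γ : Lang A),
      (∀ (k : ℕ) (f : (Fin k → A) → A), Pol Γ f → ∀ a, f (fun _ => a) = a) →
      (∃ U : Set A, Closed (polAlg Γ) U ∧ U.Nontrivial ∧ Abelian (polAlg Γ) U) →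
      ∀ δ : ℝ, 0 < δ → δ < 1 / 2 → ∃ ρ : ℝ, 0 < ρ ∧
        ∀ n : ℕ, (2 : ℝ) ^ (ρ * n) ≤ maxDef Γ n ⌈δ * n⌉₊) := by
  refine ⟨?_, ?_, ?_, ?_, ?_⟩
  · rintro Γ ⟨k, f, hf, hna⟩
    have hex : ∃ j, ¬ Affine (polAlg Γ j) := ⟨⟨k, f, hf⟩, hna⟩
    refine ⟨fun n d h1 h2 => ?_, fun δ h0 h1 => ?_⟩
    · rw [maxDef_eq]
      exact nonaffine_eq _ hex n d h1 h2
    · rw [rateDef_eq]
      exact nonaffine_rate _ hex δ h0 h1
  · intro n d k f T C h1 h2 h3 h4
    exact Pool.Agent.Y246.PD.t n d k f T C h1 h2 h3 h4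
  · intro Γ h δ h0 h1
    have haff : ∀ j, Affine (polAlg Γ j) := fun j => h j.1 j.2.1 j.2.2
    have key : ∀ n : ℕ, (2 : ℝ) ^ ((1 - H δ) * n) ≤ maxClosed (polAlg Γ) n ⌈δ * n⌉₊ :=
      affine_le _ haff δ h0 h1
    refine ⟨fun n => ?_, ?_, ?_⟩
    · rw [maxDef_eq]
      exact key n
    · rw [rateDef_eq]
      exact le_rate _ δ _ key
    · rw [rateDef_eq]
      exact rate_le_R _ δ
  · intro A _ _ _ Γ hid hU n d hd
    have hid' : Idem (polAlg Γ) := fun j a => hid j.1 j.2.1 j.2.2 a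
    rw [maxDef_eq]
    refine ⟨block_le' _ hid' n d hd, ?_⟩
    apply maxClosed_pow_le _ hd
    intro C hC hm
    have := Pool.Agent.Y394.PD.t (polSig Γ) A n d (fun _ => polAlg Γ) ∅ C hd (fun _ => hid')
      (fun _ _ => hU) hC hm
    rwa [Finset.card_empty, maxCode_zero, one_pow, mul_one] at this
  · rintro A _ _ Γ hid ⟨U, hU, hn, hab⟩ δ h0 h1
    have hid' : Idem (polAlg Γ) := fun j a => hid j.1 j.2.1 j.2.2 a
    obtain ⟨ρ, hρ, key⟩ := low Pool.Agent.Y809.PD.t Pool.Agent.Y888.PD.t (polSig Γ) A (polAlg Γ) U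
      hid' hU hn hab δ h0 h1
    refine ⟨ρ, hρ, fun n => ?_⟩
    obtain ⟨C, h3, h4, h5⟩ := key n
    rw [maxDef_eq]
    refine h5.trans ?_
    have := le_maxClosed (n := n) (d := ⌈δ * n⌉₊) (polAlg Γ) C h3 fun x hx y hy hxy =>
      Nat.ceil_le.2 (h4 x hx y hy hxy)
    exact_mod_cast this

end Pool.Agent.Results.MP_0430e4_lc.PolymorphismDichotomy
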