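import Pool.Agent.Y570.LS.Fin
import Pool.Agent.TH41.BL.DEL

/-!
# MP_0430e4_lc: the sum-of-squares hierarchy stays above the bound of Gilbert and Varshamov

A pseudo-code of level `(s, t)` is a real function `y` on sets of words which behaves like
`y(S) = Prob(S ⊆ C)` for a random code `C` with minimum distance `d`: `y(∅) = 1`, `y(S) = 0` if `S`
has two words at distance less than `d`, and after every conditioning on `D ⊆ C, E ∩ C = ∅` with
`|D| + |E| ≤ s` the pseudo-expectation of the square of every polynomial of degree `t` in the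
indicators `[x ∈ C]` is nonnegative. For `s = 0` this is level `t` of Lasserre's hierarchy. The
bound `SOS s t n d` is the largest pseudo-expectation of `|C|`; the bounds `A_k(n, d)` of Gijswijt,
Mittelmann and Schrijver (here `GMS`) are weaker than `SOS k (k / 2) n d`.

We show that the bounds are valid, decrease with the levels and are exact for `s = 2^n`; but for
every fixed `δ` in `(0, 1/2)` their exponent at level `(s, t)` is at least
`(1 - 1/(2t)) (1 - H(δ)) + 1/(2t) H(1/2 - √(δ (1 - δ)))`, which is larger than the exponent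
`1 - H(δ)` of Gilbert and Varshamov, and this is true uniformly up to levels `s, t ≤ c √n`.
-/

namespace Pool.Agent.Results.MP_0430e4_lc.SumOfSquaresLevels

/-- `A(n,d)`: the largest size of a binary code of length `n` with minimum distance at least `d`. -/
noncomputable def A (n d : ℕ) : ℕ :=
  sSup {m | ∃ C : Finset (Fin n → Bool),
    (∀ x ∈ C, ∀ y ∈ C, x ≠ y → d ≤ hammingDist x y) ∧ C.card = m}

/-- The pseudo-probability of `D ∪ S ⊆ C, E ∩ C = ∅`:
`∑_{F ⊆ E} (-1)^|F| y(D ∪ F ∪ S)`. -/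
def pseudoProb {n : ℕ} (y : Finset (Fin n → Bool) → ℝ) (D E S : Finset (Fin n → Bool)) : ℝ :=
  ∑ F ∈ E.powerset, (-1) ^ F.card * y (D ∪ F ∪ S)

/-- Pseudo-codes of level `(s, t)`, length `n` and minimum distance `d`: the matrices with entries
`pseudoProb y D E (S ∪ T)`, with `S` and `T` of size at most `t`, are positive semidefinite for all
`D` and `E` with `|D| + |E| ≤ s`. -/
structure IsPseudoCode (s t n d : ℕ) (y : Finset (Fin n → Bool) → ℝ) : Prop where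
  one : y ∅ = 1
  dist : ∀ S : Finset (Fin n → Bool), ∀ u ∈ S, ∀ v ∈ S, u ≠ v → hammingDist u v < d → y S = 0
  psd : ∀ D E : Finset (Fin n → Bool), D.card + E.card ≤ s →
    ∀ f : Finset (Fin n → Bool) → ℝ, (∀ S, t < S.card → f S = 0) →
      0 ≤ ∑ S, ∑ T, f S * f T * pseudoProb y D E (S ∪ T)

/-- The sum-of-squares bound of level `(s, t)`: the largest value of `∑_x y({x})`. -/
noncomputable def SOS (s t n d : ℕ) : ℝ :=
  sSup {v : ℝ | ∃ y, IsPseudoCode s t n d y ∧ v = ∑ x, y {x}}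

/-- The solutions of the `k`-point program of Gijswijt, Mittelmann and Schrijver: for every `D` of
size at most `k` the matrix with entries `y(S ∪ T)`, with `S, T ⊇ D`, `|D| + 2 |S \ D| ≤ k` and
`|D| + 2 |T \ D| ≤ k`, is positive semidefinite. -/
structure IsGMS (k n d : ℕ) (y : Finset (Fin n → Bool) → ℝ) : Prop where
  one : y ∅ = 1
  dist : ∀ S : Finset (Fin n → Bool), ∀ u ∈ S, ∀ v ∈ S, u ≠ v → hammingDist u v < d → y S = 0
  psd : ∀ D : Finset (Fin n → Bool), D.card ≤ k → ∀ f : Finset (Fin n → Bool) → ℝ,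
    (∀ S, f S ≠ 0 → D ⊆ S ∧ D.card + 2 * (S \ D).card ≤ k) →
      0 ≤ ∑ S, ∑ T, f S * f T * y (S ∪ T)

/-- The bound `A_k(n, d)` of Gijswijt, Mittelmann and Schrijver. -/
noncomputable def GMS (k n d : ℕ) : ℝ :=
  sSup {v : ℝ | ∃ y, IsGMS k n d y ∧ v = ∑ x, y {x}}

/-- The binary entropy function. -/
noncomputable def H (x : ℝ) : ℝ := -x * Real.logb 2 x - (1 - x) * Real.logb 2 (1 - x)

/-- Half of the difference between the exponents `H(1/2 - √(δ (1 - δ)))` of McEliece, Rodemich,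
Rumsey and Welch (first bound) and `1 - H(δ)` of Gilbert and Varshamov. -/
noncomputable def gain (δ : ℝ) : ℝ := (H (1 / 2 - √(δ * (1 - δ))) - (1 - H δ)) / 2

open Pool.Agent.TH41.BL Pool.Agent.Y570

lemma pc_iff (s t n d : ℕ) (y : Finset (Fin n → Bool) → ℝ) :
    IsPseudoCode s t n d y ↔ LS.PC s t n d y :=
  ⟨fun h => ⟨h.one, h.dist, h.psd⟩, fun h => ⟨h.one, h.dist, h.psd⟩⟩

lemma SOS_eq (s t n d : ℕ) : SOS s t n d = LS.SO s t n d := by
  unfold SOS LS.SO
  simp only [pc_iff]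

lemma gp_iff (k n d : ℕ) (y : Finset (Fin n → Bool) → ℝ) :
    IsGMS k n d y ↔ LS.GP k n d y :=
  ⟨fun h => ⟨h.one, h.dist, h.psd⟩, fun h => ⟨h.one, h.dist, h.psd⟩⟩

lemma GMS_eq (k n d : ℕ) : GMS k n d = LS.GS k n d := by
  unfold GMS LS.GS
  simp only [gp_iff]

lemma H_eq (x : ℝ) : H x = Real.binEntropy x / Real.log 2 := by
  unfold H Real.binEntropy Real.logb
  rw [Real.log_inv, Real.log_inv]
  ring

lemma A_bdd (n d : ℕ) : BddAbove {m | ∃ C : Finset (Fin n → Bool),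
    (∀ x ∈ C, ∀ y ∈ C, x ≠ y → d ≤ hammingDist x y) ∧ C.card = m} := by
  refine ⟨Fintype.card (Fin n → Bool), ?_⟩
  rintro k ⟨C, -, rfl⟩
  exact Finset.card_le_univ C

lemma A_mem (n d : ℕ) : ∃ C : Finset (Fin n → Bool),
    (∀ x ∈ C, ∀ y ∈ C, x ≠ y → d ≤ hammingDist x y) ∧ C.card = A n d := by
  have : A n d ∈ {k | ∃ C : Finset (Fin n → Bool),
      (∀ x ∈ C, ∀ y ∈ C, x ≠ y → d ≤ hammingDist x y) ∧ C.card = k} :=
    Nat.sSup_mem ⟨0, ∅, by simp, by simp⟩ (A_bdd n d)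
  exact this

/-- **The sum-of-squares hierarchy stays above the bound of Gilbert and Varshamov.** -/
theorem result :
    (∀ s t n d : ℕ, 1 ≤ t → (A n d : ℝ) ≤ SOS s t n d ∧ SOS (s + 1) t n d ≤ SOS s t n d ∧
      SOS s (t + 1) n d ≤ SOS s t n d) ∧
    (∀ s t n d : ℕ, 1 ≤ t → 2 ^ n ≤ s → SOS s t n d = A n d) ∧
    (∀ k n d : ℕ, 2 ≤ k → SOS k (k / 2) n d ≤ GMS k n d) ∧
    (∀ δ : ℝ, 0 < δ → δ < 1 / 2 → 0 < gain δ) ∧
    ∀ δ γ : ℝ, 0 < δ → δ < 1 / 2 → γ < gain δ →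
      ∃ c : ℝ, 0 < c ∧ ∃ n₀ : ℕ, ∀ n ≥ n₀,
        (∀ s t : ℕ, 1 ≤ t → (s : ℝ) ≤ c * √n → (t : ℝ) ≤ c * √n →
          (2 : ℝ) ^ ((1 - H δ + γ / t) * n) ≤ SOS s t n ⌈δ * n⌉₊) ∧
        ∀ k : ℕ, 2 ≤ k → (k : ℝ) ≤ c * √n →
          (2 : ℝ) ^ ((1 - H δ + 2 * γ / k) * n) ≤ GMS k n ⌈δ * n⌉₊ := by
  simp_rw [SOS_eq, GMS_eq]
  have hl2 : 0 < Real.log 2 := Real.log_pos (by norm_num)
  have hgain : ∀ δ : ℝ, gain δ = (Real.binEntropy (1 / 2 - √(δ * (1 - δ))) +
      Real.binEntropy δ - Real.log 2) / 2 / Real.log 2 := by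
    intro δ
    unfold gain
    rw [H_eq, H_eq]
    field_simp
    ring
  have hpos : ∀ δ : ℝ, 0 < δ → δ < 1 / 2 → 0 < gain δ := by
    intro δ h0 h1
    rw [hgain]
    have := LS.gain_pos h0 h1
    exact div_pos (by linarith) hl2
  refine ⟨fun s t n d ht => ⟨?_, LS.SO_anti (Nat.le_succ s) le_rfl ht,
    LS.SO_anti le_rfl (Nat.le_succ t) ht⟩, fun s t n d ht hs => ?_,
    fun k n d hk => LS.SO_le_GS hk, hpos, fun δ γ h0 h1 hγ => ?_⟩
  · obtain ⟨C, hC, hcard⟩ := A_mem n d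
    rw [← hcard]
    exact LS.code_le ht C hC
  · refine le_antisymm (LS.SO_full hs ht (A n d) fun C hC => le_csSup (A_bdd n d) ⟨C, hC, rfl⟩) ?_
    obtain ⟨C, hC, hcard⟩ := A_mem n d
    rw [← hcard]
    exact LS.code_le ht C hC
  · obtain ⟨γ', hγ'⟩ : ∃ γ' : ℝ, γ' = max γ 0 := ⟨_, rfl⟩
    have hγ0 : 0 ≤ γ' := by
      rw [hγ']
      exact le_max_right _ _
    have hγ1 : γ ≤ γ' := by
      rw [hγ']
      exact le_max_left _ _
    have hγ2 : γ' < gain δ := by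
      rw [hγ']
      exact max_lt hγ (hpos δ h0 h1)
    obtain ⟨c, hc, n₀, h⟩ := LS.SO_lower k7_chr h0 h1 (γ := γ') (by
      rw [hgain, lt_div_iff₀ hl2] at hγ2
      exact hγ2)
    refine ⟨c, hc, n₀, fun n hn => ?_⟩
    have hn0 : (0 : ℝ) ≤ n := Nat.cast_nonneg _
    have key : ∀ s t : ℕ, 1 ≤ t → (s : ℝ) ≤ c * √n → (t : ℝ) ≤ c * √n →
        (2 : ℝ) ^ ((1 - H δ + γ' / t) * n) ≤ LS.SO s t n ⌈δ * n⌉₊ := by
      intro s t ht hs htc
      rw [H_eq]
      exact h n hn s t ht hs htc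
    refine ⟨fun s t ht hs htc => ?_, fun k hk hkc => ?_⟩
    · refine le_trans ?_ (key s t ht hs htc)
      refine Real.rpow_le_rpow_of_exponent_le (by norm_num) (mul_le_mul_of_nonneg_right ?_ hn0)
      have : γ / t ≤ γ' / t := div_le_div_of_nonneg_right hγ1 (Nat.cast_nonneg _)
      linarith
    · have hk2 : 1 ≤ k / 2 := by omega
      have hk3 : ((k / 2 : ℕ) : ℝ) ≤ (k : ℝ) / 2 := Nat.cast_div_le
      have hk4 : (0 : ℝ) < ((k / 2 : ℕ) : ℝ) := by exact_mod_cast hk2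
      have hk5 : (0 : ℝ) < k := by exact_mod_cast (by omega : 0 < k)
      refine le_trans ?_ ((key k (k / 2) hk2 hkc (by linarith)).trans (LS.SO_le_GS hk))
      refine Real.rpow_le_rpow_of_exponent_le (by norm_num) (mul_le_mul_of_nonneg_right ?_ hn0)
      have h3 : 2 * γ / k ≤ γ' / ((k / 2 : ℕ) : ℝ) := by
        calc 2 * γ / k ≤ 2 * γ' / k := div_le_div_of_nonneg_right (by linarith) hk5.le
          _ = γ' / (k / 2) := by field_simp
          _ ≤ γ' / ((k / 2 : ℕ) : ℝ) := div_le_div_of_nonneg_left hγ0 hk4 hk3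
      linarith

end Pool.Agent.Results.MP_0430e4_lc.SumOfSquaresLevels
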